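import Pool.Agent.helper90.KS.Spec

/-!
# MP_26dbae_co: a random partition (module PT)
-/

set_option autoImplicit false

open scoped BigOperators

namespace Pool.Agent.KS

open Pool.Agent.helper23.TH

noncomputable section

open Classical

/-- at least one sixteenth of the functions have the values `true` at `a`, `b` and `false` at
`c`, `d` -/
theorem PT_count {V : Type} [Fintype V] (a b c d : V) (hac : a ≠ c) (had : a ≠ d) (hbc : b ≠ c)
    (hbd : b ≠ d) :
    Fintype.card (V → Bool) ≤ 16 * (Finset.univ.filter fun ω : V → Bool =>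
      ω a = true ∧ ω b = true ∧ ω c = false ∧ ω d = false).card := by
  set S := (Finset.univ.filter fun ω : V → Bool =>
      ω a = true ∧ ω b = true ∧ ω c = false ∧ ω d = false) with hS
  let g : (V → Bool) → (Bool × Bool × Bool × Bool) × (V → Bool) := fun ω =>
    ((ω a, ω b, ω c, ω d), fun x => if x = a ∨ x = b then true else
      if x = c ∨ x = d then false else ω x)
  have hg : Function.Injective g := by
    intro ω ω' h
    have h1 : (ω a, ω b, ω c, ω d) = (ω' a, ω' b, ω' c, ω' d) := congrArg Prod.fst h
    have h2 := congrArg Prod.snd h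
    simp only [Prod.mk.injEq] at h1
    obtain ⟨ha, hb, hc, hd⟩ := h1
    funext x
    have hx := congrFun h2 x
    simp only [g] at hx
    by_cases h3 : x = a
    · rw [h3, ha]
    by_cases h4 : x = b
    · rw [h4, hb]
    by_cases h5 : x = c
    · rw [h5, hc]
    by_cases h6 : x = d
    · rw [h6, hd]
    simpa [h3, h4, h5, h6] using hx
  have hmap : ∀ ω ∈ (Finset.univ : Finset (V → Bool)), g ω ∈
      (Finset.univ : Finset (Bool × Bool × Bool × Bool)) ×ˢ S := by
    intro ω _
    simp only [Finset.mem_product, Finset.mem_univ, true_and, hS, Finset.mem_filter, g]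
    refine ⟨by simp, by simp, ?_, ?_⟩
    · simp [hac.symm, hbc.symm]
    · simp [had.symm, hbd.symm]
  have h := Finset.card_le_card_of_injOn g hmap (hg.injOn)
  rw [Finset.card_product] at h
  have h16 : (Finset.univ : Finset (Bool × Bool × Bool × Bool)).card = 16 := by
    simp
  rw [h16, Finset.card_univ] at h
  exact h

theorem PT : PT_stmt := by
  intro V K _ χ
  by_contra hcon
  push Not at hcon
  have hsum : ∑ ω : V → Bool, (16 * ∑ v, dg (Gb χ ω) Finset.univ v) <
      ∑ _ω : V → Bool, ∑ v, dg (Ga χ) Finset.univ v :=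
    Finset.sum_lt_sum_of_nonempty Finset.univ_nonempty (fun ω _ => hcon ω)
  have e1 : ∑ ω : V → Bool, (16 * ∑ v, dg (Gb χ ω) Finset.univ v) =
      ∑ v : V × V, ∑ w : V × V, 16 * (Finset.univ.filter fun ω : V → Bool =>
        Gb χ ω v w).card := by
    have : ∀ ω : V → Bool, 16 * ∑ v, dg (Gb χ ω) Finset.univ v =
        ∑ v : V × V, ∑ w : V × V, 16 * (if Gb χ ω v w then 1 else 0) := by
      intro ω
      rw [Finset.mul_sum]
      refine Finset.sum_congr rfl fun v _ => ?_
      rw [← Finset.mul_sum]
      congr 1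
      unfold dg
      rw [Finset.card_filter]
    rw [Finset.sum_congr rfl fun ω _ => this ω, Finset.sum_comm]
    refine Finset.sum_congr rfl fun v _ => ?_
    rw [Finset.sum_comm]
    refine Finset.sum_congr rfl fun w _ => ?_
    rw [← Finset.mul_sum, Finset.card_filter]
  have e2 : ∑ _ω : V → Bool, ∑ v, dg (Ga χ) Finset.univ v =
      ∑ v : V × V, ∑ w : V × V, (if Ga χ v w then Fintype.card (V → Bool) else 0) := by
    rw [Finset.sum_const, smul_eq_mul, Finset.mul_sum, Finset.card_univ]
    refine Finset.sum_congr rfl fun v _ => ?_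
    unfold dg
    rw [Finset.card_filter, Finset.mul_sum]
    refine Finset.sum_congr rfl fun w _ => ?_
    split_ifs <;> simp
  rw [e1, e2] at hsum
  refine absurd hsum (not_lt.2 ?_)
  refine Finset.sum_le_sum fun v _ => Finset.sum_le_sum fun w _ => ?_
  split_ifs with h
  · have hG : ∀ ω : V → Bool, Gb χ ω v w ↔
        (ω v.1 = true ∧ ω w.1 = true ∧ ω v.2 = false ∧ ω w.2 = false) := by
      intro ω
      unfold Gb
      exact ⟨fun h => h.2, fun h' => ⟨h, h'⟩⟩
    have hh := h
    unfold Ga at hh
    obtain ⟨h1, h2, h3, h4, h5, h6, h7⟩ := hh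
    have := PT_count v.1 w.1 v.2 w.2 h1 h4 (Ne.symm h5) h2
    have e : (Finset.univ.filter fun ω : V → Bool => Gb χ ω v w) =
        (Finset.univ.filter fun ω : V → Bool =>
          ω v.1 = true ∧ ω w.1 = true ∧ ω v.2 = false ∧ ω w.2 = false) :=
      Finset.filter_congr fun ω _ => hG ω
    rw [e]
    exact this
  · exact Nat.zero_le _

end

end Pool.Agent.KS
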